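import Pool.Agent.Helper64.DT.Stmts

set_option autoImplicit false

namespace Pool.Agent.Helper64.DT

open Pool.Agent.Helper64.CT
open Pool.Agent.Helper64.HG (Ovl Model Circ IC HellyCircle ChordModel)

/-- the values of `bm` for two overlapping intervals -/
theorem sec_bm {V : Type} (l r : V → ℝ) (w : V → Bool) (x y : V) (h1 : l x < l y)
    (h2 : l y < r x) (h3 : r x < r y) :
    bm l r w x y = !(xor (w x) (w y)) ∧ bm l r w y x = xor (w x) (w y) := by
  unfold bm InP tl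
  constructor
  · cases hy : w y
    · rw [if_neg]
      · cases w x <;> rfl
      · simp only [Bool.false_eq_true, if_false]
        rintro ⟨_, h⟩
        linarith
    · rw [if_pos]
      · cases w x <;> rfl
      · simp only [if_true]
        exact ⟨h1, h2⟩
  · cases hx : w x
    · rw [if_pos]
      · cases w y <;> rfl
      · simp only [Bool.false_eq_true, if_false]
        exact ⟨h2, h3⟩
    · rw [if_neg]
      · cases w y <;> rfl
      · simp only [if_true]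
        rintro ⟨h, _⟩
        linarith

/-- the witness property -/
def SecW {V : Type} (l r : V → ℝ) (w v : V → Bool) (i j k : V) : Prop :=
  bm l r w i j = v j ∧ v i ≠ v j ∧ bm l r w i k = bm l r w j k ∧ bm l r w i k ≠ v k

theorem sec_bool : ∀ wa wb wc va vb vc : Bool,
    ((va ≠ wa ∧ vb = wb ∧ vc ≠ wc) ∨ (va = wa ∧ vb ≠ wb ∧ vc = wc)) →
    ((!(xor wa wb)) = (!(xor wb wc)) ∧ (!(xor wb wc)) = (xor wa wc) ∧
      (!(xor wa wc)) = (xor wb wc) ∧ (xor wb wc) = (xor wa wb) ∧ va = vb ∧ vb = vc) ∨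
    ((!(xor wa wb)) = vb ∧ va ≠ vb ∧ (!(xor wa wc)) = (!(xor wb wc)) ∧ (!(xor wa wc)) ≠ vc) ∨
    ((!(xor wa wc)) = vc ∧ va ≠ vc ∧ (!(xor wa wb)) = (xor wb wc) ∧ (!(xor wa wb)) ≠ vb) ∨
    ((xor wa wb) = va ∧ vb ≠ va ∧ (!(xor wb wc)) = (!(xor wa wc)) ∧ (!(xor wb wc)) ≠ vc) ∨
    ((!(xor wb wc)) = vc ∧ vb ≠ vc ∧ (xor wa wb) = (xor wa wc) ∧ (xor wa wb) ≠ va) ∨
    ((xor wa wc) = va ∧ vc ≠ va ∧ (xor wb wc) = (!(xor wa wb)) ∧ (xor wb wc) ≠ vb) ∨
    ((xor wb wc) = vb ∧ vc ≠ vb ∧ (xor wa wc) = (xor wa wb) ∧ (xor wa wc) ≠ va) := by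
  intro wa wb wc va vb vc
  cases wa <;> cases wb <;> cases wc <;> cases va <;> cases vb <;> cases vc <;> simp

/-- the sorted case -/
theorem sec_sorted {V : Type} (l r : V → ℝ) (w v : V → Bool) (a b c : V)
    (h1 : l a < l b) (h2 : l b < l c) (h3 : l c < r a) (h4 : r a < r b) (h5 : r b < r c)
    (H : ∀ t : ℝ, t ≠ l a → t ≠ r a → t ≠ l b → t ≠ r b → t ≠ l c → t ≠ r c →
      ¬ ((InP l r a t ↔ v a = w a) ∧ (InP l r b t ↔ v b = w b) ∧ (InP l r c t ↔ v c = w c))) :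
    (bm l r w a b = bm l r w b c ∧ bm l r w b c = bm l r w c a ∧
      bm l r w a c = bm l r w c b ∧ bm l r w c b = bm l r w b a ∧ v a = v b ∧ v b = v c) ∨
    SecW l r w v a b c ∨ SecW l r w v a c b ∨ SecW l r w v b a c ∨ SecW l r w v b c a ∨
    SecW l r w v c a b ∨ SecW l r w v c b a := by
  have key : ∀ (t : ℝ) (pa pb pc : Prop), t ≠ l a → t ≠ r a → t ≠ l b → t ≠ r b → t ≠ l c →
      t ≠ r c → (InP l r a t ↔ pa) → (InP l r b t ↔ pb) → (InP l r c t ↔ pc) →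
      ¬ ((pa ↔ v a = w a) ∧ (pb ↔ v b = w b) ∧ (pc ↔ v c = w c)) := by
    intro t pa pb pc g1 g2 g3 g4 g5 g6 ha hb hc
    have := H t g1 g2 g3 g4 g5 g6
    rwa [ha, hb, hc] at this
  have T : ∀ (y : V) (t : ℝ), l y < t → t < r y → (InP l r y t ↔ True) := fun y t g1 g2 =>
    iff_true_intro ⟨g1, g2⟩
  have F1 : ∀ (y : V) (t : ℝ), t < l y → (InP l r y t ↔ False) := fun y t g1 =>
    iff_false_intro fun h => absurd h.1 (by linarith)
  have F2 : ∀ (y : V) (t : ℝ), r y < t → (InP l r y t ↔ False) := fun y t g1 =>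
    iff_false_intro fun h => absurd h.2 (by linarith)
  have k0 := key (l a - 1) False False False (by linarith) (by linarith) (by linarith)
    (by linarith) (by linarith) (by linarith) (F1 a _ (by linarith)) (F1 b _ (by linarith))
    (F1 c _ (by linarith))
  have k1 := key ((l a + l b) / 2) True False False (by linarith) (by linarith) (by linarith)
    (by linarith) (by linarith) (by linarith) (T a _ (by linarith) (by linarith))
    (F1 b _ (by linarith)) (F1 c _ (by linarith))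
  have k2 := key ((l b + l c) / 2) True True False (by linarith) (by linarith) (by linarith)
    (by linarith) (by linarith) (by linarith) (T a _ (by linarith) (by linarith))
    (T b _ (by linarith) (by linarith)) (F1 c _ (by linarith))
  have k3 := key ((l c + r a) / 2) True True True (by linarith) (by linarith) (by linarith)
    (by linarith) (by linarith) (by linarith) (T a _ (by linarith) (by linarith))
    (T b _ (by linarith) (by linarith)) (T c _ (by linarith) (by linarith))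
  have k4 := key ((r a + r b) / 2) False True True (by linarith) (by linarith) (by linarith)
    (by linarith) (by linarith) (by linarith) (F2 a _ (by linarith))
    (T b _ (by linarith) (by linarith)) (T c _ (by linarith) (by linarith))
  have k5 := key ((r b + r c) / 2) False False True (by linarith) (by linarith) (by linarith)
    (by linarith) (by linarith) (by linarith) (F2 a _ (by linarith))
    (F2 b _ (by linarith)) (T c _ (by linarith) (by linarith))
  have hv : (v a ≠ w a ∧ v b = w b ∧ v c ≠ w c) ∨ (v a = w a ∧ v b ≠ w b ∧ v c = w c) := by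
    simp only [true_iff, false_iff] at k0 k1 k2 k3 k4 k5
    by_cases ea : v a = w a <;> by_cases eb : v b = w b <;> by_cases ec : v c = w c <;> simp_all
  obtain ⟨ab, ba⟩ := sec_bm l r w a b h1 (by linarith) h4
  obtain ⟨ac, ca⟩ := sec_bm l r w a c (by linarith) (by linarith) (by linarith)
  obtain ⟨bc, cb⟩ := sec_bm l r w b c h2 (by linarith) h5
  unfold SecW
  rw [ab, ba, ac, ca, bc, cb]
  exact sec_bool (w a) (w b) (w c) (v a) (v b) (v c) hv

/-- `(i, j, k)` is a permutation of `(x, y, z)` -/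
def SecP {V : Type} (x y z i j k : V) : Prop :=
  (i = x ∧ j = y ∧ k = z) ∨ (i = x ∧ j = z ∧ k = y) ∨ (i = y ∧ j = x ∧ k = z) ∨
    (i = y ∧ j = z ∧ k = x) ∨ (i = z ∧ j = x ∧ k = y) ∨ (i = z ∧ j = y ∧ k = x)

theorem sec_fin {V : Type} (l r : V → ℝ) (w v : V → Bool) (x y z a b c : V)
    (p1 : SecP x y z a b c) (p2 : SecP x y z a c b) (p3 : SecP x y z b a c)
    (p4 : SecP x y z b c a) (p5 : SecP x y z c a b) (p6 : SecP x y z c b a)
    (hc : (bm l r w a b = bm l r w b c ∧ bm l r w b c = bm l r w c a ∧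
      bm l r w a c = bm l r w c b ∧ bm l r w c b = bm l r w b a ∧ v a = v b ∧ v b = v c) ∨
      SecW l r w v a b c ∨ SecW l r w v a c b ∨ SecW l r w v b a c ∨ SecW l r w v b c a ∨
      SecW l r w v c a b ∨ SecW l r w v c b a) :
    (bm l r w x y = bm l r w y z ∧ bm l r w y z = bm l r w z x ∧ v x = v y ∧ v y = v z) ∨
      ∃ i j k, SecP x y z i j k ∧ SecW l r w v i j k := by
  rcases hc with ⟨e1, e2, e3, e4, e5, e6⟩ | hW | hW | hW | hW | hW | hW
  · left
    rcases p1 with ⟨h1, h2, h3⟩ | ⟨h1, h2, h3⟩ | ⟨h1, h2, h3⟩ | ⟨h1, h2, h3⟩ |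
      ⟨h1, h2, h3⟩ | ⟨h1, h2, h3⟩ <;> subst h1 <;> subst h2 <;> subst h3
    · exact ⟨e1, e2, e5, e6⟩
    · exact ⟨e3, e4, e5.trans e6, e6.symm⟩
    · exact ⟨(e3.trans e4).symm, e3, e5.symm, e5.trans e6⟩
    · exact ⟨e2.symm.trans e1.symm, e1, (e5.trans e6).symm, e5⟩
    · exact ⟨e2, (e1.trans e2).symm, e6, (e5.trans e6).symm⟩
    · exact ⟨e4, (e3.trans e4).symm, e6.symm, e5.symm⟩
  · exact Or.inr ⟨a, b, c, p1, hW⟩
  · exact Or.inr ⟨a, c, b, p2, hW⟩
  · exact Or.inr ⟨b, a, c, p3, hW⟩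
  · exact Or.inr ⟨b, c, a, p4, hW⟩
  · exact Or.inr ⟨c, a, b, p5, hW⟩
  · exact Or.inr ⟨c, b, a, p6, hW⟩

theorem secP1 {V : Type} (x y z : V) : SecP x y z x y z := Or.inl ⟨rfl, rfl, rfl⟩
theorem secP2 {V : Type} (x y z : V) : SecP x y z x z y := Or.inr (Or.inl ⟨rfl, rfl, rfl⟩)
theorem secP3 {V : Type} (x y z : V) : SecP x y z y x z :=
  Or.inr (Or.inr (Or.inl ⟨rfl, rfl, rfl⟩))
theorem secP4 {V : Type} (x y z : V) : SecP x y z y z x :=
  Or.inr (Or.inr (Or.inr (Or.inl ⟨rfl, rfl, rfl⟩)))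
theorem secP5 {V : Type} (x y z : V) : SecP x y z z x y :=
  Or.inr (Or.inr (Or.inr (Or.inr (Or.inl ⟨rfl, rfl, rfl⟩))))
theorem secP6 {V : Type} (x y z : V) : SecP x y z z y x :=
  Or.inr (Or.inr (Or.inr (Or.inr (Or.inr ⟨rfl, rfl, rfl⟩))))

theorem st_SEC : ST_SEC := by
  intro V G T l r w v hM y1 h1 y2 h2 y3 h3 a12 a23 a31 H
  have o12 := (hM.adj y1 h1 y2 h2).1 a12
  have o23 := (hM.adj y2 h2 y3 h3).1 a23
  have o31 := (hM.adj y3 h3 y1 h1).1 a31
  unfold Ovl at o12 o23 o31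
  have P1 := secP1 y1 y2 y3
  have P2 := secP2 y1 y2 y3
  have P3 := secP3 y1 y2 y3
  have P4 := secP4 y1 y2 y3
  have P5 := secP5 y1 y2 y3
  have P6 := secP6 y1 y2 y3
  rcases o12 with ⟨p1, p2, p3⟩ | ⟨p1, p2, p3⟩ <;> rcases o23 with ⟨q1, q2, q3⟩ | ⟨q1, q2, q3⟩ <;>
    rcases o31 with ⟨s1, s2, s3⟩ | ⟨s1, s2, s3⟩
  · linarith
  · -- y1 < y2 < y3
    exact sec_fin l r w v y1 y2 y3 y1 y2 y3 P1 P2 P3 P4 P5 P6
      (sec_sorted l r w v y1 y2 y3 (by linarith) (by linarith)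
      (by linarith) (by linarith) (by linarith)
      fun t g1 g2 g3 g4 g5 g6 h => H t g1 g2 g3 g4 g5 g6 h)
  · -- y3 < y1 < y2
    exact sec_fin l r w v y1 y2 y3 y3 y1 y2 P5 P6 P2 P1 P4 P3
      (sec_sorted l r w v y3 y1 y2 (by linarith) (by linarith)
      (by linarith) (by linarith) (by linarith)
      fun t g1 g2 g3 g4 g5 g6 h => H t g3 g4 g5 g6 g1 g2 ⟨h.2.1, h.2.2, h.1⟩)
  · -- y1 < y3 < y2
    exact sec_fin l r w v y1 y2 y3 y1 y3 y2 P2 P1 P5 P6 P3 P4
      (sec_sorted l r w v y1 y3 y2 (by linarith) (by linarith)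
      (by linarith) (by linarith) (by linarith)
      fun t g1 g2 g3 g4 g5 g6 h => H t g1 g2 g5 g6 g3 g4 ⟨h.1, h.2.2, h.2.1⟩)
  · -- y2 < y3 < y1
    exact sec_fin l r w v y1 y2 y3 y2 y3 y1 P4 P3 P6 P5 P1 P2
      (sec_sorted l r w v y2 y3 y1 (by linarith) (by linarith)
      (by linarith) (by linarith) (by linarith)
      fun t g1 g2 g3 g4 g5 g6 h => H t g5 g6 g1 g2 g3 g4 ⟨h.2.2, h.1, h.2.1⟩)
  · -- y2 < y1 < y3
    exact sec_fin l r w v y1 y2 y3 y2 y1 y3 P3 P4 P1 P2 P6 P5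
      (sec_sorted l r w v y2 y1 y3 (by linarith) (by linarith)
      (by linarith) (by linarith) (by linarith)
      fun t g1 g2 g3 g4 g5 g6 h => H t g3 g4 g1 g2 g5 g6 ⟨h.2.1, h.1, h.2.2⟩)
  · -- y3 < y2 < y1
    exact sec_fin l r w v y1 y2 y3 y3 y2 y1 P6 P5 P4 P3 P2 P1
      (sec_sorted l r w v y3 y2 y1 (by linarith) (by linarith)
      (by linarith) (by linarith) (by linarith)
      fun t g1 g2 g3 g4 g5 g6 h => H t g5 g6 g3 g4 g1 g2 ⟨h.2.2, h.2.1, h.1⟩)
  · linarith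

end Pool.Agent.Helper64.DT
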